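import Pool.Agent.Lib.MP_8b7544_co.Df.Direct

set_option autoImplicit false

namespace Pool.Agent.Results.MP_8b7544_co.Deficiency

open Pool.Agent.Lib.MP_8b7544_co

/-- **The edge-magic tree conjecture holds asymptotically.** For every `ε > 0` there is `M` such
that for every finite tree `T` with `n ≥ M` vertices and every `m ≥ ε n` the graph `T ∪ m K_1`
(`T` together with `m` isolated vertices) has an edge-magic labelling `x ↦ e x + 1` (a bijection
from its `n + m` vertices and `n - 1` edges onto `1, …, 2 n - 1 + m`) in which all vertices of `T`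
get labels `≤ N` and all edges get labels in `[N + 1, 2 N]`, for some `N ≤ (1 + ε) n`. -/
theorem result (ε : ℝ) (hε : 0 < ε) : ∃ M : ℕ, ∀ (V : Type) [Fintype V] (T : SimpleGraph V),
    T.IsTree → M ≤ Fintype.card V → ∀ m : ℕ, ε * Fintype.card V ≤ m →
    ∃ (e : ((V ⊕ Fin m) ⊕ (T ⊕g (⊥ : SimpleGraph (Fin m))).edgeSet) ≃
        Fin (Nat.card ((V ⊕ Fin m) ⊕ (T ⊕g (⊥ : SimpleGraph (Fin m))).edgeSet))) (k N : ℕ),
      Df.MagicLab (T ⊕g (⊥ : SimpleGraph (Fin m))) e k ∧ (N : ℝ) ≤ (1 + ε) * Fintype.card V ∧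
      (∀ v : V, (e (Sum.inl (Sum.inl v))).val + 1 ≤ N) ∧
      ∀ a, N < (e (Sum.inr a)).val + 1 ∧ (e (Sum.inr a)).val + 1 ≤ 2 * N :=
  Df.final_all ε hε

end Pool.Agent.Results.MP_8b7544_co.Deficiency
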