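import Pool.Agent.Lib.MP_8b7544_co.One.All

set_option autoImplicit false

namespace Pool.Agent.Results.MP_8b7544_co.FewInner

open Pool.Agent.Lib.MP_8b7544_co

/-- For every `k` there is `M` such that every finite tree with at most `k` vertices that are not
leaves and at least `M` vertices is edge-magic. -/
theorem result (k : ℕ) : ∃ M : ℕ, ∀ (W : Type) [Fintype W] (T : SimpleGraph W), T.IsTree →
    {w | (T.neighborSet w).ncard ≠ 1}.ncard ≤ k → M ≤ Fintype.card W → EdgeMagic T :=
  One.main k

end Pool.Agent.Results.MP_8b7544_co.FewInner
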